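import Pool.Agent.helper66.FB.Spec
import Pool.Agent.helper20.HP.S1

/-!
Module K of part B: words killed on the skeleton (pointwise Kac bound, mass of short and long words).
-/

set_option autoImplicit false

open scoped BigOperators Topology
open Filter MeasureTheory

namespace Pool.Agent.helper66.FB

open Finset
open Pool.Agent.helper20.HP
open Pool.Agent.helper90.FN (Hit)

section

set_option linter.unusedSectionVars false

variable {V : Type} [Fintype V] [DecidableEq V] (K : HW V)

theorem K_sum_p_left (y : V) : ∑ x, K.p x y = 1 := by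
  rw [← K.sum_one y]
  exact Finset.sum_congr rfl fun x _ => K.symm x y

theorem K_avoid_append (D : Finset V) (l l' : List V) :
    ind (∀ z ∈ l ++ l', z ∉ D) = ind (∀ z ∈ l, z ∉ D) * ind (∀ z ∈ l', z ∉ D) := by
  rw [← ind_and]
  refine ind_congr ?_
  constructor
  · intro h
    exact ⟨fun z hz => h z (List.mem_append_left _ hz), fun z hz => h z (List.mem_append_right _ hz)⟩
  · rintro ⟨h1, h2⟩ z hz
    rcases List.mem_append.mp hz with hz | hz
    · exact h1 z hz
    · exact h2 z hz

theorem K_avoid_single (D : Finset V) (y : V) : ind (∀ z ∈ [y], z ∉ D) = ind (y ∉ D) :=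
  ind_congr (by simp)

theorem K_kw_zero (D : Finset V) (F : V → List V → ℝ) : kw K D 0 F = ∑ y ∈ D, F y [] := by
  unfold kw
  refine Finset.sum_congr rfl fun y _ => ?_
  rw [W_zero, ind_true (by simp), one_mul]

theorem K_kw_succ (D : Finset V) (t : ℕ) (g : V → ℝ) :
    kw K D (t + 1) (fun y l => g (lst y l))
      = kw K D t (fun y l => (fun z => ∑ x, K.p z x * (ind (x ∉ D) * g x)) (lst y l)) := by
  unfold kw
  refine Finset.sum_congr rfl fun y _ => ?_
  rw [A1_W_succ']
  refine W_congr K t y fun l _ => ?_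
  rw [Finset.mul_sum]
  refine Finset.sum_congr rfl fun x _ => ?_
  simp only []
  rw [K_avoid_append, K_avoid_single, lst_concat]
  ring

theorem K_kws_succ (D : Finset V) (N : ℕ) (g : V → ℝ) :
    kws K D (N + 1) (fun y l => g (lst y l))
      = ∑ y ∈ D, g y +
        kws K D N (fun y l => (fun z => ∑ x, K.p z x * (ind (x ∉ D) * g x)) (lst y l)) := by
  unfold kws
  rw [Finset.sum_range_succ', K_kw_zero, add_comm]
  refine congrArg₂ (· + ·) rfl ?_
  refine Finset.sum_congr rfl fun t _ => ?_
  exact K_kw_succ K D t g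

theorem K_avoid_compl (D : Finset V) (g : V → ℝ) :
    ∑ y ∈ D, g y + ∑ x, ind (x ∉ D) * g x = ∑ x, g x := by
  classical
  have h1 : ∑ y ∈ D, g y = ∑ x, ind (x ∈ D) * g x := by
    rw [← Finset.sum_filter_add_sum_filter_not Finset.univ (fun x => x ∈ D)]
    have h2 : ∑ x ∈ Finset.univ.filter (fun x => ¬ x ∈ D), ind (x ∈ D) * g x = 0 := by
      refine Finset.sum_eq_zero fun x hx => ?_
      rw [ind_false (Finset.mem_filter.mp hx).2, zero_mul]
    rw [h2, add_zero, Finset.filter_mem_eq_inter, Finset.univ_inter]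
    refine Finset.sum_congr rfl fun x hx => ?_
    rw [ind_true hx, one_mul]
  rw [h1, ← Finset.sum_add_distrib]
  refine Finset.sum_congr rfl fun x _ => ?_
  rw [ind_not]
  ring

/-- reversal of time: the stationary walk -/
theorem K_stat (k : ℕ) (f : List V → ℝ) :
    ∑ x, W K (k + 1) x f = ∑ x, W K k x (fun l => f (x :: l)) := by
  simp only [W_succ]
  rw [Finset.sum_comm]
  refine Finset.sum_congr rfl fun y _ => ?_
  rw [← Finset.sum_mul, K_sum_p_left, one_mul]

theorem K_hitsum_succ (D : Finset V) (m : ℕ) :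
    ∑ x, W K (m + 1) x (fun l => ind (∃ z ∈ x :: l, z ∈ D))
      = ∑ x, W K m x (fun l => ind (∃ z ∈ x :: l, z ∈ D)) +
        ∑ y ∈ D, W K (m + 1) y (fun l => ind (∀ z ∈ l, z ∉ D)) := by
  classical
  rw [← K_stat K m (fun l => ind (∃ z ∈ l, z ∈ D))]
  have h1 : ∑ y ∈ D, W K (m + 1) y (fun l => ind (∀ z ∈ l, z ∉ D))
      = ∑ x, ind (x ∈ D) * W K (m + 1) x (fun l => ind (∀ z ∈ l, z ∉ D)) := by
    have h2 := K_avoid_compl (D := D)
      (fun x => ind (x ∈ D) * W K (m + 1) x (fun l => ind (∀ z ∈ l, z ∉ D)))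
    have h3 : ∑ x, ind (x ∉ D) *
        (ind (x ∈ D) * W K (m + 1) x (fun l => ind (∀ z ∈ l, z ∉ D))) = 0 := by
      refine Finset.sum_eq_zero fun x _ => ?_
      by_cases hx : x ∈ D
      · rw [ind_false (not_not.mpr hx), zero_mul]
      · rw [ind_false (p := x ∈ D) hx, zero_mul, mul_zero]
    rw [h3, add_zero] at h2
    rw [← h2]
    refine Finset.sum_congr rfl fun x hx => ?_
    rw [ind_true hx, one_mul]
  rw [h1, ← Finset.sum_add_distrib]
  refine Finset.sum_congr rfl fun x _ => ?_
  rw [← W_mul_left, ← W_add]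
  refine W_congr K _ _ fun l _ => ?_
  by_cases hx : x ∈ D
  · rw [ind_true (p := ∃ z ∈ x :: l, z ∈ D) ⟨x, by simp, hx⟩, ind_true hx, one_mul]
    by_cases hl : ∃ z ∈ l, z ∈ D
    · rw [ind_true hl, ind_false (fun h => by obtain ⟨z, h1, h2⟩ := hl; exact h z h1 h2), add_zero]
    · rw [ind_false hl, ind_true (fun z h1 h2 => hl ⟨z, h1, h2⟩), zero_add]
  · rw [ind_false (p := x ∈ D) hx, zero_mul, add_zero]
    refine ind_congr ?_
    constructor
    · rintro ⟨z, hz, hzD⟩
      rcases List.mem_cons.mp hz with rfl | hz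
      · exact absurd hzD hx
      · exact ⟨z, hz, hzD⟩
    · rintro ⟨z, hz, hzD⟩
      exact ⟨z, List.mem_cons_of_mem _ hz, hzD⟩

theorem K_hitsum_zero (D : Finset V) :
    ∑ x, W K 0 x (fun l => ind (∃ z ∈ x :: l, z ∈ D)) = (D.card : ℝ) := by
  classical
  simp only [W_zero]
  have h := K_avoid_compl (D := D) (fun x => ind (∃ z ∈ x :: ([] : List V), z ∈ D))
  rw [← h]
  have h1 : ∑ y ∈ D, ind (∃ z ∈ y :: ([] : List V), z ∈ D) = (D.card : ℝ) := by
    rw [Finset.card_eq_sum_ones, Nat.cast_sum]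
    refine Finset.sum_congr rfl fun x hx => ?_
    rw [ind_true ⟨x, by simp, hx⟩, Nat.cast_one]
  have h2 : ∑ x, ind (x ∉ D) * ind (∃ z ∈ x :: ([] : List V), z ∈ D) = 0 := by
    refine Finset.sum_eq_zero fun x _ => ?_
    by_cases hx : x ∈ D
    · rw [ind_false (not_not.mpr hx), zero_mul]
    · rw [ind_false (p := ∃ z ∈ x :: ([] : List V), z ∈ D) (by simpa using hx), mul_zero]
  rw [h1, h2, add_zero]

theorem K_hitsum (D : Finset V) (m : ℕ) :
    kws K D (m + 1) (fun _ _ => 1)
      = ∑ x, W K m x (fun l => ind (∃ z ∈ x :: l, z ∈ D)) := by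
  induction m with
  | zero =>
    rw [K_hitsum_zero]
    unfold kws
    rw [Finset.sum_range_one, K_kw_zero]
    simp
  | succ m ih =>
    have h1 : kws K D (m + 1 + 1) (fun _ _ => 1)
        = kws K D (m + 1) (fun _ _ => 1) + kw K D (m + 1) (fun _ _ => 1) := by
      unfold kws
      rw [Finset.sum_range_succ]
    rw [h1, ih, K_hitsum_succ]
    congr 1
    unfold kw
    simp only [mul_one]

theorem K_nQ (D : Finset V) (m : ℕ) : (Fintype.card V : ℝ) * Q K D m
    = ∑ x, W K m x (fun l => ind (∃ z ∈ x :: l, z ∈ D)) := by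
  unfold Q
  by_cases hn : (Fintype.card V : ℝ) = 0
  · have h0 : Fintype.card V = 0 := by exact_mod_cast hn
    have : IsEmpty V := Fintype.card_eq_zero_iff.mp h0
    rw [hn, zero_mul]
    simp
  · field_simp

theorem K_iter (D : Finset V) (H : ℕ) (hH : ∀ x, W K H x (fun l => ind (∀ z ∈ l, z ∉ D)) ≤ 1 / 2)
    (j : ℕ) (x : V) : W K (j * H) x (fun l => ind (∀ z ∈ l, z ∉ D)) ≤ (1 / 2) ^ j := by
  induction j with
  | zero =>
    rw [Nat.zero_mul, W_zero, pow_zero]
    exact ind_le_one _
  | succ j ih =>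
    rw [Nat.succ_mul, W_split]
    have h1 : W K (j * H) x (fun l => W K H (lst x l) (fun l' => ind (∀ z ∈ l ++ l', z ∉ D)))
        ≤ W K (j * H) x (fun l => (1 / 2) * ind (∀ z ∈ l, z ∉ D)) := by
      refine W_mono K _ _ fun l _ => ?_
      have h2 : W K H (lst x l) (fun l' => ind (∀ z ∈ l ++ l', z ∉ D))
          = ind (∀ z ∈ l, z ∉ D) * W K H (lst x l) (fun l' => ind (∀ z ∈ l', z ∉ D)) := by
        rw [← W_mul_left]
        refine W_congr K _ _ fun l' _ => ?_
        exact K_avoid_append D l l'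
      rw [h2, mul_comm]
      exact mul_le_mul_of_nonneg_right (hH _) (ind_nonneg _)
    refine h1.trans ?_
    rw [W_mul_left, pow_succ]
    linarith

end

theorem K1 : K1_stmt := by
  intro V _ _ K D N
  induction N with
  | zero =>
    intro g hg
    unfold kws
    rw [Finset.range_zero, Finset.sum_empty]
    exact Finset.sum_nonneg fun x _ => hg x
  | succ N ih =>
    intro g hg
    rw [K_kws_succ]
    have h0 : ∀ z, 0 ≤ ∑ x, K.p z x * (ind (x ∉ D) * g x) := fun z =>
      Finset.sum_nonneg fun x _ => mul_nonneg (K.nonneg z x) (mul_nonneg (ind_nonneg _) (hg x))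
    have h1 := ih (fun z => ∑ x, K.p z x * (ind (x ∉ D) * g x)) h0
    have h2 : ∑ z, ∑ x, K.p z x * (ind (x ∉ D) * g x) = ∑ x, ind (x ∉ D) * g x := by
      rw [Finset.sum_comm]
      refine Finset.sum_congr rfl fun x _ => ?_
      rw [← Finset.sum_mul, K_sum_p_left, one_mul]
    have h3 := K_avoid_compl D g
    linarith

theorem K2 : K2_stmt := by
  intro V _ _ K D m
  rw [K_nQ, K_hitsum]

theorem K3 : K3_stmt := by
  intro V _ _ K D H hH j N
  have hn0 : (0 : ℝ) ≤ (Fintype.card V : ℝ) := Nat.cast_nonneg _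
  have hkw0 : ∀ t, 0 ≤ kw K D t (fun _ _ => 1) := fun t =>
    Finset.sum_nonneg fun y _ => W_nonneg K _ _ fun l _ => mul_nonneg (ind_nonneg _) zero_le_one
  -- the term of length `t`
  have hterm : ∀ t, kw K D t (fun _ l => ind (j * H < l.length))
      = if j * H < t then kw K D t (fun _ _ => 1) else 0 := by
    intro t
    unfold kw
    split_ifs with ht
    · refine Finset.sum_congr rfl fun y _ => ?_
      refine W_congr K _ _ fun l hl => ?_
      simp only []
      rw [hl, ind_true ht]
    · refine Finset.sum_eq_zero fun y _ => ?_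
      rw [W_congr K t y (g := fun _ => 0)
        (fun l hl => by simp only []; rw [hl, ind_false ht, mul_zero]), W_const]
  -- bound by the sum over `(j H, M]`
  have hbd : ∀ M, kws K D (j * H + 1 + M) (fun _ l => ind (j * H < l.length))
      = kws K D (j * H + 1 + M) (fun _ _ => 1) - kws K D (j * H + 1) (fun _ _ => 1) := by
    intro M
    unfold kws
    rw [Finset.sum_range_add, Finset.sum_range_add (fun t => kw K D t (fun _ _ => 1))]
    have h1 : ∑ t ∈ range (j * H + 1), kw K D t (fun _ l => ind (j * H < l.length)) = 0 := by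
      refine Finset.sum_eq_zero fun t ht => ?_
      rw [hterm, if_neg]
      have := Finset.mem_range.mp ht
      omega
    have h2 : ∑ t ∈ range M, kw K D (j * H + 1 + t) (fun _ l => ind (j * H < l.length))
        = ∑ t ∈ range M, kw K D (j * H + 1 + t) (fun _ _ => 1) := by
      refine Finset.sum_congr rfl fun t _ => ?_
      rw [hterm, if_pos]
      omega
    rw [h1, h2]
    ring
  have hmono : kws K D N (fun _ l => ind (j * H < l.length))
      ≤ kws K D (j * H + 1 + N) (fun _ l => ind (j * H < l.length)) := by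
    unfold kws
    refine Finset.sum_le_sum_of_subset_of_nonneg (Finset.range_mono (by omega)) fun t _ _ => ?_
    rw [hterm]
    split_ifs
    · exact hkw0 t
    · exact le_refl 0
  refine hmono.trans ?_
  rw [hbd, show j * H + 1 + N = (j * H + N) + 1 by ring, K_hitsum, K_hitsum]
  have h1 : ∑ x, W K (j * H + N) x (fun l => ind (∃ z ∈ x :: l, z ∈ D))
      ≤ (Fintype.card V : ℝ) := by
    calc ∑ x, W K (j * H + N) x (fun l => ind (∃ z ∈ x :: l, z ∈ D))
        ≤ ∑ x : V, (1 : ℝ) := by
          refine Finset.sum_le_sum fun x _ => ?_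
          rw [← W_const K (j * H + N) x 1]
          exact W_mono K _ _ fun l _ => ind_le_one _
      _ = (Fintype.card V : ℝ) := by simp
  have h2 : (Fintype.card V : ℝ) - ∑ x, W K (j * H) x (fun l => ind (∃ z ∈ x :: l, z ∈ D))
      ≤ (Fintype.card V : ℝ) * (1 / 2) ^ j := by
    have h3 : (Fintype.card V : ℝ) - ∑ x, W K (j * H) x (fun l => ind (∃ z ∈ x :: l, z ∈ D))
        = ∑ x, W K (j * H) x (fun l => ind (¬ ∃ z ∈ x :: l, z ∈ D)) := by
      have h4 : (Fintype.card V : ℝ) = ∑ x : V, (1 : ℝ) := by simp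
      rw [h4, ← Finset.sum_sub_distrib]
      refine Finset.sum_congr rfl fun x _ => ?_
      rw [← W_const K (j * H) x 1, ← W_sub]
      refine W_congr K _ _ fun l _ => ?_
      rw [ind_not]
    rw [h3]
    calc ∑ x, W K (j * H) x (fun l => ind (¬ ∃ z ∈ x :: l, z ∈ D))
        ≤ ∑ x : V, ((1 : ℝ) / 2) ^ j := by
          refine Finset.sum_le_sum fun x _ => ?_
          refine le_trans (W_mono K _ _ fun l _ => ?_) (K_iter K D H hH j x)
          refine ind_mono ?_
          intro h z hz hzD
          exact h ⟨z, List.mem_cons_of_mem _ hz, hzD⟩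
      _ = (Fintype.card V : ℝ) * (1 / 2) ^ j := by
          rw [Finset.sum_const, Finset.card_univ, nsmul_eq_mul]
  linarith

end Pool.Agent.helper66.FB
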