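import Pool.Agent.helper11.FB.K

/-!
Module QE of part B: hitting probability from the energy, and from the stationary walk to every start.
-/

set_option autoImplicit false

open scoped BigOperators Topology
open Filter MeasureTheory

namespace Pool.Agent.helper66.FB

open Finset
open Pool.Agent.helper20.HP
open Pool.Agent.helper90.FN (Hit)

section

set_option linter.unusedSectionVars false

variable {V : Type} [Fintype V] [DecidableEq V] (K : HW V)

/-- number of visits to `A` up to time `m` -/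
noncomputable def QE_N (A : Finset V) (m : ℕ) (x : V) (l : List V) : ℝ :=
  ∑ u ∈ range (m + 1), ind (lst x (l.take u) ∈ A)

theorem QE_take (m u : ℕ) (hu : u ≤ m) (x : V) (f : List V → ℝ) :
    W K m x (fun l => f (l.take u)) = W K u x f := by
  obtain ⟨r, rfl⟩ := Nat.exists_eq_add_of_le hu
  exact B1_take u r x f

theorem QE_ind_sum (A : Finset V) (g : V → ℝ) : ∑ y, g y * ind (y ∈ A) = ∑ y ∈ A, g y := by
  classical
  rw [← Finset.sum_filter_add_sum_filter_not Finset.univ (fun x => x ∈ A)]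
  have h2 : ∑ x ∈ Finset.univ.filter (fun x => ¬ x ∈ A), g x * ind (x ∈ A) = 0 := by
    refine Finset.sum_eq_zero fun x hx => ?_
    rw [ind_false (Finset.mem_filter.mp hx).2, mul_zero]
  rw [h2, add_zero, Finset.filter_mem_eq_inter, Finset.univ_inter]
  refine Finset.sum_congr rfl fun x hx => ?_
  rw [ind_true hx, mul_one]

/-- the total weight with endpoint in `A` -/
theorem QE_one (A : Finset V) (m u : ℕ) (hu : u ≤ m) :
    ∑ x, W K m x (fun l => ind (lst x (l.take u) ∈ A)) = (A.card : ℝ) := by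
  have h1 : ∀ x, W K m x (fun l => ind (lst x (l.take u) ∈ A)) = ∑ y ∈ A, K.pt u x y := by
    intro x
    rw [QE_take K m u hu x (fun l => ind (lst x l ∈ A)), W_lst K u x (fun z => ind (z ∈ A)),
      QE_ind_sum]
  simp_rw [h1]
  rw [Finset.sum_comm]
  have h2 : ∀ y, ∑ x, K.pt u x y = 1 := by
    intro y
    rw [← pt_sum K u y]
    exact Finset.sum_congr rfl fun x _ => pt_symm K u x y
  simp_rw [h2]
  simp

theorem QE_EN (A : Finset V) (m : ℕ) :
    ∑ x, W K m x (QE_N A m x) = ((m : ℝ) + 1) * A.card := by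
  unfold QE_N
  simp_rw [W_sum K (range (m + 1))]
  rw [Finset.sum_comm]
  rw [Finset.sum_congr rfl (fun u hu => QE_one K A m u (by have := Finset.mem_range.mp hu; omega))]
  rw [Finset.sum_const, Finset.card_range, nsmul_eq_mul]
  push_cast
  ring

/-- two visits -/
theorem QE_two (A : Finset V) (m u v : ℕ) (huv : u ≤ v) (hv : v ≤ m) :
    ∑ x, W K m x (fun l => ind (lst x (l.take u) ∈ A) * ind (lst x (l.take v) ∈ A))
      = ∑ a ∈ A, ∑ b ∈ A, K.pt (v - u) a b := by
  obtain ⟨r, rfl⟩ := Nat.exists_eq_add_of_le huv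
  have h1 : ∀ x, W K m x (fun l => ind (lst x (l.take u) ∈ A) * ind (lst x (l.take (u + r)) ∈ A))
      = ∑ a, K.pt u x a * (ind (a ∈ A) * ∑ b ∈ A, K.pt r a b) := by
    intro x
    have h2 : W K m x (fun l => ind (lst x (l.take u) ∈ A) * ind (lst x (l.take (u + r)) ∈ A))
        = W K m x (fun l => (fun l' => ind (lst x (l'.take u) ∈ A) * ind (lst x l' ∈ A))
            (l.take (u + r))) := by
      refine W_congr K _ _ fun l _ => ?_
      simp only []
      rw [List.take_take, min_eq_left (by omega)]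
    rw [h2, QE_take K m (u + r) hv x
      (fun l' => ind (lst x (l'.take u) ∈ A) * ind (lst x l' ∈ A)), W_split]
    have h3 : W K u x (fun l => W K r (lst x l) (fun l' =>
        ind (lst x ((l ++ l').take u) ∈ A) * ind (lst x (l ++ l') ∈ A)))
        = W K u x (fun l => (fun a => ind (a ∈ A) * ∑ b ∈ A, K.pt r a b) (lst x l)) := by
      refine W_congr K _ _ fun l hl => ?_
      have h4 : W K r (lst x l) (fun l' =>
          ind (lst x ((l ++ l').take u) ∈ A) * ind (lst x (l ++ l') ∈ A))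
          = W K r (lst x l) (fun l' => ind (lst x l ∈ A) * ind (lst (lst x l) l' ∈ A)) := by
        refine W_congr K _ _ fun l' _ => ?_
        rw [← hl, List.take_left, lst_append]
      rw [h4, W_mul_left, W_lst K r (lst x l) (fun z => ind (z ∈ A)), QE_ind_sum]
    rw [h3, W_lst K u x (fun a => ind (a ∈ A) * ∑ b ∈ A, K.pt r a b)]
  simp_rw [h1]
  rw [Finset.sum_comm]
  have h2 : ∀ y, ∑ x, K.pt u x y = 1 := by
    intro y
    rw [← pt_sum K u y]
    exact Finset.sum_congr rfl fun x _ => pt_symm K u x y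
  have h3 : ∀ a, ∑ x, K.pt u x a * (ind (a ∈ A) * ∑ b ∈ A, K.pt r a b)
      = (∑ b ∈ A, K.pt r a b) * ind (a ∈ A) := by
    intro a
    rw [← Finset.sum_mul, h2]
    ring
  simp_rw [h3]
  rw [QE_ind_sum A (fun a => ∑ b ∈ A, K.pt r a b), Nat.add_sub_cancel_left]

theorem QE_tri (m : ℕ) (g : ℕ → ℝ) (hg : ∀ r, 0 ≤ g r) :
    ∑ u ∈ range (m + 1), ∑ v ∈ range (m + 1), (if u ≤ v then g (v - u) else g (u - v))
      ≤ 2 * ((m + 1) * ∑ r ∈ range (m + 1), g r) := by
  have hG : 0 ≤ ∑ r ∈ range (m + 1), g r := Finset.sum_nonneg fun r _ => hg r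
  have h1 : ∀ u ∈ range (m + 1), ∑ v ∈ range (m + 1), (if u ≤ v then g (v - u) else g (u - v))
      ≤ 2 * ∑ r ∈ range (m + 1), g r := by
    intro u hu
    have hu' := Finset.mem_range.mp hu
    have h2 : ∑ v ∈ range (m + 1), (if u ≤ v then g (v - u) else g (u - v))
        = ∑ v ∈ (range (m + 1)).filter (fun v => u ≤ v), g (v - u)
          + ∑ v ∈ (range (m + 1)).filter (fun v => ¬ u ≤ v), g (u - v) := by
      rw [← Finset.sum_filter_add_sum_filter_not (range (m + 1)) (fun v => u ≤ v)]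
      refine congrArg₂ (· + ·) ?_ ?_
      · refine Finset.sum_congr rfl fun v hv => ?_
        rw [if_pos (Finset.mem_filter.mp hv).2]
      · refine Finset.sum_congr rfl fun v hv => ?_
        rw [if_neg (Finset.mem_filter.mp hv).2]
    have h3 : ∑ v ∈ (range (m + 1)).filter (fun v => u ≤ v), g (v - u)
        ≤ ∑ r ∈ range (m + 1), g r := by
      have h4 : ∑ v ∈ (range (m + 1)).filter (fun v => u ≤ v), g (v - u)
          = ∑ r ∈ ((range (m + 1)).filter (fun v => u ≤ v)).image (fun v => v - u), g r := by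
        rw [Finset.sum_image]
        intro a ha b hb hab
        have ha' := (Finset.mem_filter.mp ha).2
        have hb' := (Finset.mem_filter.mp hb).2
        simp only at hab
        omega
      rw [h4]
      refine Finset.sum_le_sum_of_subset_of_nonneg ?_ fun r _ _ => hg r
      intro r hr
      obtain ⟨v, hv, rfl⟩ := Finset.mem_image.mp hr
      have := Finset.mem_range.mp (Finset.mem_filter.mp hv).1
      rw [Finset.mem_range]
      omega
    have h5 : ∑ v ∈ (range (m + 1)).filter (fun v => ¬ u ≤ v), g (u - v)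
        ≤ ∑ r ∈ range (m + 1), g r := by
      have h4 : ∑ v ∈ (range (m + 1)).filter (fun v => ¬ u ≤ v), g (u - v)
          = ∑ r ∈ ((range (m + 1)).filter (fun v => ¬ u ≤ v)).image (fun v => u - v), g r := by
        rw [Finset.sum_image]
        intro a ha b hb hab
        have ha' := (Finset.mem_filter.mp ha).2
        have hb' := (Finset.mem_filter.mp hb).2
        simp only at hab
        omega
      rw [h4]
      refine Finset.sum_le_sum_of_subset_of_nonneg ?_ fun r _ _ => hg r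
      intro r hr
      obtain ⟨v, hv, rfl⟩ := Finset.mem_image.mp hr
      rw [Finset.mem_range]
      omega
    rw [h2]
    linarith
  calc _ ≤ ∑ u ∈ range (m + 1), 2 * ∑ r ∈ range (m + 1), g r := Finset.sum_le_sum h1
    _ = 2 * ((m + 1) * ∑ r ∈ range (m + 1), g r) := by
        rw [Finset.sum_const, Finset.card_range, nsmul_eq_mul]
        push_cast
        ring

theorem QE_EN2 (A : Finset V) (m : ℕ) :
    ∑ x, W K m x (fun l => QE_N A m x l ^ 2) ≤ 2 * ((m + 1) * En K m A A) := by
  have h1 : ∑ x, W K m x (fun l => QE_N A m x l ^ 2)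
      = ∑ u ∈ range (m + 1), ∑ v ∈ range (m + 1), ∑ x, W K m x (fun l =>
          ind (lst x (l.take u) ∈ A) * ind (lst x (l.take v) ∈ A)) := by
    have h2 : ∀ x, W K m x (fun l => QE_N A m x l ^ 2)
        = ∑ u ∈ range (m + 1), ∑ v ∈ range (m + 1), W K m x (fun l =>
          ind (lst x (l.take u) ∈ A) * ind (lst x (l.take v) ∈ A)) := by
      intro x
      have h3 : W K m x (fun l => QE_N A m x l ^ 2)
          = W K m x (fun l => ∑ u ∈ range (m + 1), ∑ v ∈ range (m + 1),
            ind (lst x (l.take u) ∈ A) * ind (lst x (l.take v) ∈ A)) := by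
        refine W_congr K _ _ fun l _ => ?_
        unfold QE_N
        rw [sq, Finset.sum_mul_sum]
      rw [h3, W_sum]
      refine Finset.sum_congr rfl fun u _ => ?_
      rw [W_sum]
    simp_rw [h2]
    rw [Finset.sum_comm]
    refine Finset.sum_congr rfl fun u _ => ?_
    rw [Finset.sum_comm]
  have h2 : ∀ u ∈ range (m + 1), ∀ v ∈ range (m + 1), ∑ x, W K m x (fun l =>
          ind (lst x (l.take u) ∈ A) * ind (lst x (l.take v) ∈ A))
        = if u ≤ v then ∑ a ∈ A, ∑ b ∈ A, K.pt (v - u) a b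
            else ∑ a ∈ A, ∑ b ∈ A, K.pt (u - v) a b := by
    intro u hu v hv
    have hu' := Finset.mem_range.mp hu
    have hv' := Finset.mem_range.mp hv
    split_ifs with h
    · exact QE_two K A m u v h (by omega)
    · rw [← QE_two K A m v u (by omega) (by omega)]
      refine Finset.sum_congr rfl fun x _ => ?_
      exact W_congr K _ _ fun l _ => mul_comm _ _
  have h3 : En K m A A = ∑ r ∈ range (m + 1), ∑ a ∈ A, ∑ b ∈ A, K.pt r a b := by
    unfold En Gr
    rw [Finset.sum_comm' (t' := A) (s' := fun _ => range (m + 1))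
      (s := range (m + 1)) (t := fun _ => A) (by intro x y; simp)]
    refine Finset.sum_congr rfl fun a _ => ?_
    rw [Finset.sum_comm]
  rw [h1, Finset.sum_congr rfl (fun u hu => Finset.sum_congr rfl (fun v hv => h2 u hu v hv)), h3]
  exact QE_tri m (fun r => ∑ a ∈ A, ∑ b ∈ A, K.pt r a b)
    (fun r => Finset.sum_nonneg fun a _ => Finset.sum_nonneg fun b _ => pt_nonneg K r a b)

theorem QE_N_zero (A : Finset V) (m : ℕ) (x : V) (l : List V)
    (h : ¬ ∃ z ∈ x :: l, z ∈ A) : QE_N A m x l = 0 := by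
  unfold QE_N
  refine Finset.sum_eq_zero fun u _ => ?_
  refine ind_false fun h1 => h ⟨_, ?_, h1⟩
  exact B1_lst_take_mem x l u

theorem QE_pos (D : Finset V) (m : ℕ) : 0 ≤ Q K D m := by
  unfold Q
  exact div_nonneg (Finset.sum_nonneg fun x _ => W_nonneg K _ _ fun l _ => ind_nonneg _)
    (Nat.cast_nonneg _)

theorem QH_one (D : Finset V) (m h₀ : ℕ) (κ : ℝ) (hh : 1 ≤ h₀)
    (hpt : ∀ x y, 1 / (2 * (Fintype.card V : ℝ)) ≤ K.pt h₀ x y) (hQ : κ ≤ Q K D m) (x : V) :
    W K (h₀ + m) x (fun l => ind (∀ z ∈ l, z ∉ D)) ≤ 1 - κ / 2 := by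
  have hn : (0 : ℝ) < (Fintype.card V : ℝ) := by
    have : Nonempty V := ⟨x⟩
    exact_mod_cast Fintype.card_pos
  set φ : V → ℝ := fun y => W K m y (fun l => ind (∃ z ∈ y :: l, z ∈ D)) with hφ
  have hφ0 : ∀ y, 0 ≤ φ y := fun y => W_nonneg K _ _ fun l _ => ind_nonneg _
  have h1 : W K (h₀ + m) x (fun l => ind (∀ z ∈ l, z ∉ D))
      ≤ W K h₀ x (fun l => (fun y => 1 - φ y) (lst x l)) := by
    rw [W_split]
    refine W_mono K _ _ fun l hl => ?_
    have hlm : lst x l ∈ l := by
      rcases List.eq_nil_or_concat l with h2 | ⟨a, b, h2⟩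
      · exfalso
        rw [h2] at hl
        simp at hl
        omega
      · rw [h2, List.concat_eq_append, lst_concat]
        simp
    have h3 : (fun y => 1 - φ y) (lst x l)
        = W K m (lst x l) (fun l' => ind (¬ ∃ z ∈ lst x l :: l', z ∈ D)) := by
      simp only [hφ]
      rw [← W_const K m (lst x l) 1, ← W_sub]
      refine W_congr K _ _ fun l' _ => ?_
      rw [ind_not]
    rw [h3]
    refine W_mono K _ _ fun l' _ => ?_
    refine ind_mono ?_
    rintro h4 ⟨z, hz, hzD⟩
    rcases List.mem_cons.mp hz with rfl | hz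
    · exact h4 _ (List.mem_append_left _ hlm) hzD
    · exact h4 z (List.mem_append_right _ hz) hzD
  refine h1.trans ?_
  rw [W_lst K h₀ x (fun y => 1 - φ y)]
  have h2 : ∑ y, K.pt h₀ x y * (1 - φ y) = 1 - ∑ y, K.pt h₀ x y * φ y := by
    have h5 := pt_sum K h₀ x
    simp_rw [mul_sub, mul_one]
    rw [Finset.sum_sub_distrib, h5]
  rw [h2]
  have h3 : ∑ y, 1 / (2 * (Fintype.card V : ℝ)) * φ y ≤ ∑ y, K.pt h₀ x y * φ y :=
    Finset.sum_le_sum fun y _ => mul_le_mul_of_nonneg_right (hpt x y) (hφ0 y)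
  have h4 : ∑ y, 1 / (2 * (Fintype.card V : ℝ)) * φ y = Q K D m / 2 := by
    rw [← Finset.mul_sum]
    unfold Q
    rw [hφ]
    field_simp
  linarith

theorem QH_iter (D : Finset V) (s : ℕ) (δ : ℝ) (hδ : 0 ≤ δ)
    (hs : ∀ x, W K s x (fun l => ind (∀ z ∈ l, z ∉ D)) ≤ δ)
    (j : ℕ) (x : V) : W K (j * s) x (fun l => ind (∀ z ∈ l, z ∉ D)) ≤ δ ^ j := by
  induction j with
  | zero =>
    rw [Nat.zero_mul, W_zero, pow_zero]
    exact ind_le_one _
  | succ j ih =>
    rw [Nat.succ_mul, W_split]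
    have h1 : W K (j * s) x (fun l => W K s (lst x l) (fun l' => ind (∀ z ∈ l ++ l', z ∉ D)))
        ≤ W K (j * s) x (fun l => δ * ind (∀ z ∈ l, z ∉ D)) := by
      refine W_mono K _ _ fun l _ => ?_
      have h2 : W K s (lst x l) (fun l' => ind (∀ z ∈ l ++ l', z ∉ D))
          = ind (∀ z ∈ l, z ∉ D) * W K s (lst x l) (fun l' => ind (∀ z ∈ l', z ∉ D)) := by
        rw [← W_mul_left]
        refine W_congr K _ _ fun l' _ => ?_
        exact K_avoid_append D l l'
      rw [h2, mul_comm]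
      exact mul_le_mul_of_nonneg_right (hs _) (ind_nonneg _)
    refine h1.trans ?_
    rw [W_mul_left, pow_succ, mul_comm]
    exact mul_le_mul_of_nonneg_right ih hδ

theorem QH_mono (D : Finset V) {s t : ℕ} (hst : s ≤ t) (x : V) :
    W K t x (fun l => ind (∀ z ∈ l, z ∉ D)) ≤ W K s x (fun l => ind (∀ z ∈ l, z ∉ D)) := by
  obtain ⟨r, rfl⟩ := Nat.exists_eq_add_of_le hst
  rw [W_split]
  refine W_mono K _ _ fun l _ => ?_
  rw [← W_const K r (lst x l) (ind (∀ z ∈ l, z ∉ D))]
  refine W_mono K _ _ fun l' _ => ?_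
  exact ind_mono fun h z hz => h z (List.mem_append_left _ hz)

end

theorem QE : QE_stmt := by
  intro V _ _ K A m hn
  have hnR : (0 : ℝ) < (Fintype.card V : ℝ) := by exact_mod_cast hn
  set n : ℝ := (Fintype.card V : ℝ) with hndef
  set s : ℝ := ∑ x, W K m x (fun l => QE_N A m x l ^ 2) with hs
  have hs0 : 0 ≤ s := Finset.sum_nonneg fun x _ => W_nonneg K _ _ fun l _ => sq_nonneg _
  have hQ : n * Q K A m = ∑ x, W K m x (fun l => ind (∃ z ∈ x :: l, z ∈ A)) := K_nQ K A m
  have hQ0 := QE_pos K A m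
  have hEN := QE_EN K A m
  have hEN2 : s ≤ 2 * ((m + 1) * En K m A A) := QE_EN2 K A m
  -- `2 t N ≤ N ^ 2 + t ^ 2 1(N > 0)` for all `t`
  have hkey : ∀ t : ℝ, 2 * t * (((m : ℝ) + 1) * A.card) ≤ s + t ^ 2 * (n * Q K A m) := by
    intro t
    rw [← hEN, hs, hQ, Finset.mul_sum, Finset.mul_sum, ← Finset.sum_add_distrib]
    refine Finset.sum_le_sum fun x _ => ?_
    rw [← W_mul_left, ← W_mul_left, ← W_add]
    refine W_mono K _ _ fun l _ => ?_
    by_cases hA : ∃ z ∈ x :: l, z ∈ A
    · rw [ind_true hA]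
      nlinarith [sq_nonneg (QE_N A m x l - t)]
    · rw [QE_N_zero A m x l hA, ind_false hA]
      simp
  -- conclude
  have h1 : (((m : ℝ) + 1) * A.card) ^ 2 ≤ s * (n * Q K A m) := by
    set a : ℝ := ((m : ℝ) + 1) * A.card with ha
    set q : ℝ := n * Q K A m with hq
    have hq0 : 0 ≤ q := mul_nonneg hnR.le hQ0
    have ha0 : 0 ≤ a := by positivity
    rcases hq0.eq_or_lt with h0 | h0
    · -- q = 0
      have h2 : a ≤ 0 := by
        by_contra hc
        rw [not_le] at hc
        have h3 := hkey ((s + 1) / (2 * a))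
        rw [← h0] at h3
        have h4 : 2 * ((s + 1) / (2 * a)) * a = s + 1 := by field_simp
        rw [h4] at h3
        linarith
      have h3 : a = 0 := le_antisymm h2 ha0
      rw [h3, ← h0]
      simp
    · have h3 := hkey (a / q)
      have h4 : 2 * (a / q) * a = 2 * (a ^ 2 / q) := by ring
      have h5 : (a / q) ^ 2 * q = a ^ 2 / q := by field_simp
      rw [h4, h5] at h3
      have h6 : a ^ 2 / q ≤ s := by linarith
      rw [div_le_iff₀ h0] at h6
      exact h6
  have h2 : ((m + 1) * (A.card : ℝ) / n) ^ 2 ≤ s * (n * Q K A m) / n ^ 2 := by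
    rw [div_pow]
    exact div_le_div_of_nonneg_right h1 (by positivity)
  have h3 : s * (n * Q K A m) / n ^ 2 = Q K A m * (s / n) := by
    field_simp
  rw [h3] at h2
  refine h2.trans (mul_le_mul_of_nonneg_left ?_ hQ0)
  rw [div_le_iff₀ hnR]
  calc s ≤ 2 * ((m + 1) * En K m A A) := hEN2
    _ = 2 * (↑m + 1) / n * En K m A A * n := by field_simp

theorem QH : QH_stmt := by
  intro V _ _ K D m h₀ H κ hh hpt hκ hQ hH x
  have h1 := QH_one K D m h₀ κ hh hpt hQ
  have hQ1 : Q K D m ≤ 1 := by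
    unfold Q
    have hn : (0 : ℝ) < (Fintype.card V : ℝ) := by
      have : Nonempty V := ⟨x⟩
      exact_mod_cast Fintype.card_pos
    rw [div_le_one hn]
    calc ∑ x, W K m x (fun l => ind (∃ z ∈ x :: l, z ∈ D))
        ≤ ∑ x : V, (1 : ℝ) := by
          refine Finset.sum_le_sum fun x _ => ?_
          rw [← W_const K m x 1]
          exact W_mono K _ _ fun l _ => ind_le_one _
      _ = (Fintype.card V : ℝ) := by simp
  have hδ : 0 ≤ 1 - κ / 2 := by linarith
  set j := ⌈2 / κ⌉₊ with hj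
  have hj1 : 2 / κ ≤ (j : ℝ) := Nat.le_ceil _
  have hj2 : (j : ℝ) < 2 / κ + 1 := Nat.ceil_lt_add_one (by positivity)
  have hle : j * (h₀ + m) ≤ H := by
    have h3 : ((j * (h₀ + m) : ℕ) : ℝ) ≤ H := by
      push_cast
      calc (j : ℝ) * ((h₀ : ℝ) + m) ≤ (2 / κ + 1) * ((h₀ : ℝ) + m) :=
            mul_le_mul_of_nonneg_right hj2.le (by positivity)
        _ = ((h₀ : ℝ) + m) * (2 / κ + 1) := by ring
        _ ≤ H := hH
    exact_mod_cast h3
  refine (QH_mono K D hle x).trans ?_
  refine (QH_iter K D (h₀ + m) (1 - κ / 2) hδ h1 j x).trans ?_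
  have h4 : (1 - κ / 2) ^ j ≤ Real.exp (-1) := by
    have h5 : 1 - κ / 2 ≤ Real.exp (-(κ / 2)) := by
      have := Real.add_one_le_exp (-(κ / 2))
      linarith
    calc (1 - κ / 2) ^ j ≤ (Real.exp (-(κ / 2))) ^ j := pow_le_pow_left₀ hδ h5 j
      _ = Real.exp (j * (-(κ / 2))) := by rw [← Real.exp_nat_mul]
      _ ≤ Real.exp (-1) := by
        apply Real.exp_le_exp.mpr
        have h6 : 1 ≤ (j : ℝ) * (κ / 2) := by
          calc (1 : ℝ) = 2 / κ * (κ / 2) := by field_simp
            _ ≤ (j : ℝ) * (κ / 2) := mul_le_mul_of_nonneg_right hj1 (by positivity)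
        linarith
  have h7 : Real.exp (-1) ≤ 1 / 2 := by
    rw [Real.exp_neg, one_div]
    apply inv_anti₀ (by norm_num)
    have := Real.add_one_le_exp (1 : ℝ)
    linarith
  linarith

end Pool.Agent.helper66.FB
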